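import Pool.Agent.R965.CS.Mod
import Pool.Agent.R965.CS.Lat
import Pool.Agent.Y995.TP.Fin
import Pool.Agent.Y995.TP.Gen

/-!
Project ST: slow times: many cells of slow times, lower bound for the dimension.
-/

set_option autoImplicit false
set_option linter.unusedVariables false

namespace Pool.Agent.R965.ST

open H974 Finset H342P H984P H984N Pool.Agent.Y995.FS Pool.Agent.Y995.HG
open Pool.Agent.Y41.EV
open Pool.Agent.R965.CS (chb SPairs BadC LatC lat_c badC_open rpow_tend log_ge_one chb_pos chb_le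
  le_chb)
open Pool.Agent.Y995.TP (cell Ubi cells_in ubi_gen cantor bulk_arc kt kt_ge kt_low kt_sq hj hj_pos
  hj_lim hj_small star wE_lim pr_small Th lin_exp dim_nbhd thick_times)
open MeasureTheory Filter Topology
open scoped ENNReal NNReal

/-- duration of the slow pieces -/
noncomputable def tj (κ q : ℝ) (j : ℕ) : ℝ := Pool.Agent.Y995.TP.tj κ q j

theorem tj_pos {κ q : ℝ} (hκ : 0 < κ) (j : ℕ) : 0 < tj κ q j := Pool.Agent.Y995.TP.tj_pos hκ j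

/-- slow times at scale `w` -/
def Sk (w τ : ℝ) (p : X) : Set ℝ :=
  Subtype.val '' {u : unitInterval | ∀ v : unitInterval,
    p.2 * |(v : ℝ) - u| ≤ τ / 4 → dist (p.1 v) (p.1 u) ≤ 2 * w}

/-- slow times -/
def Sl (θ : ℝ) (p : X) : Set unitInterval :=
  {u | ∃ᶠ h : ℝ in 𝓝[>] 0, ∀ v : unitInterval, p.2 * |(v : ℝ) - u| ≤ h →
    dist (p.1 v) (p.1 u) ≤ θ * chb h}

/-- cells of slow times inside a piece -/
theorem slow_cells {R : Rect} {p : X} (hp : 0 < p.2) {ρ w τ h : ℝ} {N : ℕ} (hN : 0 < N)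
    (hτ : 0 < τ) (hbad : p ∉ BadC R ρ w τ h N) {a b l : ℝ} (ha : 0 ≤ a) (hab : a ≤ b) (hb : b ≤ 1)
    (hdep : ∀ u : unitInterval, a ≤ u → (u : ℝ) ≤ b → ρ < dep R (p.1 u))
    (hlen : h < p.2 * (b - a)) (hl : 0 < l) {n : ℕ}
    (hn : (n : ℝ) + 2 ≤ τ / (2 * p.2) / l) :
    ∃ Q : Finset ℕ, Q.card = n ∧ ∀ k ∈ Q, cell l k ⊆ Set.Icc a b ∩ Sk w τ p := by
  obtain ⟨s, hs⟩ : ∃ s : unitInterval, s = ⟨a, ha, hab.trans hb⟩ := ⟨_, rfl⟩
  obtain ⟨t, ht⟩ : ∃ t : unitInterval, t = ⟨b, ha.trans hab, hb⟩ := ⟨_, rfl⟩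
  have hsv : (s : ℝ) = a := by rw [hs]
  have htv : (t : ℝ) = b := by rw [ht]
  have hz : SPairs p.1 p.2 w τ N s t := by
    by_contra hcon
    apply hbad
    refine ⟨s, t, fun u h1 h2 => ?_, ?_, hcon⟩
    · refine hdep u ?_ ?_
      · rw [← hsv]; exact h1
      · rw [← htv]; exact h2
    · rw [hsv, htv]; exact hlen
  obtain ⟨u, v, h1, -, h2⟩ := hz
  obtain ⟨g1, g2, g3⟩ := h1 ⟨0, hN⟩
  obtain ⟨g4, g5⟩ := h2 ⟨0, hN⟩
  obtain ⟨x, hx⟩ : ∃ x, x = u ⟨0, hN⟩ := ⟨_, rfl⟩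
  obtain ⟨y, hy⟩ : ∃ y, y = v ⟨0, hN⟩ := ⟨_, rfl⟩
  rw [← hx] at g1 g2 g4 g5
  rw [← hy] at g2 g3 g4 g5
  have g1' : (s : ℝ) ≤ x := g1
  have g2' : (x : ℝ) ≤ y := g2
  have g3' : (y : ℝ) ≤ t := g3
  have hball : ∀ z : unitInterval, x ≤ z → z ≤ y → dist (p.1 x) (p.1 z) ≤ w := by
    intro z hz1 hz2
    have h3 := g4 z
    rwa [min_eq_left hz2, max_eq_right hz1] at h3
  obtain ⟨e, he⟩ : ∃ e : ℝ, e = τ / (4 * p.2) := ⟨_, rfl⟩
  have he0 : 0 < e := by rw [he]; positivity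
  have hye : 4 * e ≤ (y : ℝ) - x := by
    have : τ / p.2 ≤ (y : ℝ) - x := by rw [div_le_iff₀ hp]; linarith
    rw [he]
    calc 4 * (τ / (4 * p.2)) = τ / p.2 := by field_simp
      _ ≤ _ := this
  obtain ⟨Q, hQc, hQ⟩ := cells_in hl (V := Set.Icc ((x:ℝ) + e) (y - e)) (a := x + e) (b := y - e)
    (v := τ / (2 * p.2)) subset_rfl (by have := x.2.1; linarith) (by
      rw [Real.volume_Icc, ENNReal.toReal_ofReal (by linarith)]
      have : τ / (2 * p.2) = 2 * e := by rw [he]; field_simp; norm_num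
      linarith) n hn
  refine ⟨Q, hQc, fun k hk z hz => ?_⟩
  have hzxy := (hQ k hk).1 hz
  have hza : a ≤ z := by have := hzxy.1; linarith
  have hzb : z ≤ b := by have := hzxy.2; linarith
  refine ⟨⟨hza, hzb⟩, ⟨z, ha.trans hza, hzb.trans hb⟩, ?_, rfl⟩
  obtain ⟨z', hz'⟩ : ∃ z' : unitInterval, z' = ⟨z, ha.trans hza, hzb.trans hb⟩ := ⟨_, rfl⟩
  rw [← hz']
  have hzv : (z' : ℝ) = z := by rw [hz']
  have a1 := hzxy.1
  have a2 := hzxy.2
  intro v' hv'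
  have h3 : |(v' : ℝ) - z'| ≤ e := by
    rw [he, le_div_iff₀ (by positivity)]
    linarith
  rw [abs_le, hzv] at h3
  have k1 : x ≤ v' := by show (x : ℝ) ≤ v'; linarith [h3.1]
  have k2 : v' ≤ y := by show (v' : ℝ) ≤ y; linarith [h3.2]
  have k3 : x ≤ z' := by show (x : ℝ) ≤ z'; rw [hzv]; linarith
  have k4 : z' ≤ y := by show (z' : ℝ) ≤ y; rw [hzv]; linarith
  have t1 := dist_triangle (p.1 v') (p.1 x) (p.1 z')
  rw [dist_comm (p.1 v') (p.1 x)] at t1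
  have := hball v' k1 k2
  have := hball z' k3 k4
  linarith

/-- every interval contains many cells of slow times -/
theorem ubi_slow {R : Rect} {p : X} (hp : 0 < p.2) {K A κ q : ℝ} (hK : 1 ≤ K)
    (hA : 0 < A) (hκ : 0 < κ) (hq : 0 < q) (hKq : K * q ^ 2 ≤ 1 / 48) {ρ : ℝ}
    (hbad : ∀ᶠ j : ℕ in atTop, p ∉ BadC R ρ ((1/2) ^ j) (tj κ q j) (hj K A q j) (6 * j + 36))
    {a b : unitInterval} (hdep : ∀ u : unitInterval, a ≤ u → u ≤ b → ρ < dep R (p.1 u)) :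
    Ubi (1 - 24 * (K * q ^ 2)) (fun j => Sk ((1/2) ^ j) (tj κ q j) p) a b := by
  have hKq0 : 0 < K * q ^ 2 := by positivity
  refine ubi_gen a.2.1 (H := fun j => 2 / p.2 * hj K A q j)
    (r := fun j => tj κ q j / (4 * p.2)) (l0 := fun _ => 1)
    (fun j => by have := hj_pos (K := K) (q := q) hA j; positivity)
    (fun j => by have := tj_pos (q := q) hκ j; positivity)
    (fun j => one_pos) (by linarith) (by linarith) ?_ ?_ ?_
  · have := (hj_lim hK hA hq hKq).const_mul (2 / p.2)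
    rwa [mul_zero] at this
  · intro L hL
    obtain ⟨c, hc⟩ : ∃ c : ℝ, c = 2 / p.2 / L * 2 ^ (1 / (24 * (K * q ^ 2))) := ⟨_, rfl⟩
    have hc0 : 0 < c := by rw [hc]; positivity
    filter_upwards [star (κ := κ) hK hA hκ hq hKq (c := c) hc0] with j hj'
    have h0 := hj_pos (K := K) (q := q) hA j
    have h1 := tj_pos (q := q) hκ j
    refine le_trans (le_of_eq ?_) hj'
    have e1 : 1 - (1 - 24 * (K * q ^ 2)) = 24 * (K * q ^ 2) := by ring
    rw [e1]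
    have e2 : (c * hj K A q j) ^ (24 * (K * q ^ 2)) =
        2 * (2 / p.2 * hj K A q j / L) ^ (24 * (K * q ^ 2)) := by
      rw [hc, show 2 / p.2 / L * 2 ^ (1 / (24 * (K * q ^ 2))) * hj K A q j =
        2 ^ (1 / (24 * (K * q ^ 2))) * (2 / p.2 * hj K A q j / L) by ring,
        Real.mul_rpow (by positivity) (by positivity), ← Real.rpow_mul (by norm_num),
        one_div, inv_mul_cancel₀ (by positivity), Real.rpow_one]
    have h1' : 0 < Pool.Agent.Y995.TP.tj κ q j := h1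
    have e3 : 2 / p.2 * hj K A q j / (4 * (tj κ q j / (4 * p.2))) =
        2 * (hj K A q j / Pool.Agent.Y995.TP.tj κ q j) := by
      unfold tj
      field_simp
    rw [e2, e3]
    ring
  · filter_upwards [hbad] with j hj' x y hax hyb hxy l hl _ n hn
    have hh := hj_pos (K := K) (q := q) hA j
    have hH0 : 0 < 2 / p.2 * hj K A q j := by positivity
    refine slow_cells hp (N := 6 * j + 36)
      (by omega) (tj_pos hκ j) hj' (a.2.1.trans hax) (by linarith) (hyb.trans b.2.2)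
      (fun u hu1 hu2 => hdep u (show (a:ℝ) ≤ u from hax.trans hu1)
        (show (u:ℝ) ≤ b from hu2.trans hyb)) ?_ hl ?_
    · rw [hxy]
      have e : p.2 * (2 / p.2 * hj K A q j) = 2 * hj K A q j := by field_simp
      rw [e]
      linarith
    · refine hn.trans (le_of_eq ?_)
      field_simp
      ring

theorem slow_low {κ K A0 : ℝ} (hκ : 0 < κ) (hK : 1 ≤ K) (hA0 : 1 ≤ A0)
    (hfin : ∀ R : Rect, (∀ δ : ℕ → ℝ, (∀ i, 0 < δ i) → Tendsto δ atTop (𝓝 0) →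
      ∀ μ : ProbabilityMeasure X, Tendsto (fun i => R.law (δ i)) atTop (𝓝 μ) →
      ∀ᵐ p ∂(μ : Measure X), 0 < p.2 ∧ p.1 0 = R.a ∧ p.1 1 = 0 ∧
        (∀ s : unitInterval, p.1 s ∈ closure R.D) ∧
        (∀ β : ℝ, 0 < β → β < 4/7 → ∃ Λ : ℝ, ∀ s t : unitInterval,
          dist (p.1 s) (p.1 t) ≤ Λ * |(s : ℝ) - t| ^ β) ∧
        ∀ s t : unitInterval, s < t → dimH (p.1 '' Set.Icc s t) = 7 / 4))
    {q : ℝ} (hq : 0 < q) (hKq : K * q ^ 2 ≤ 1 / 48) {R : Rect} {A : ℝ} (hA : 0 < A)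
    (hlat : LatC κ K A0 R A) {δ : ℕ → ℝ} (hδ : ∀ i, 0 < δ i) (hlim : Tendsto δ atTop (𝓝 0))
    {μ : ProbabilityMeasure X} (hμ : Tendsto (fun i => R.law (δ i)) atTop (𝓝 μ)) :
    ∀ᵐ p ∂(μ : Measure X), ∀ s t : unitInterval, s < t →
      ENNReal.ofReal (1 - 24 * (K * q ^ 2)) ≤ dimH {u : unitInterval | (s ≤ u ∧ u ≤ t) ∧
        ∃ᶠ j : ℕ in atTop, ∀ v : unitInterval, p.2 * |(v : ℝ) - u| ≤ tj κ q j / 4 →
          dist (p.1 v) (p.1 u) ≤ 2 * (1/2) ^ j} := by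
  have hA00 : 0 < A0 := by linarith
  have hKq0 : 0 < K * q ^ 2 := by positivity
  have hbc := bc R (K := 1) le_rfl (B := fun ρ j => BadC R ρ ((1/2) ^ j) (tj κ q j) (hj K A0 q j)
    (6 * j + 36)) (fun ρ j => badC_open R _ _ _ _ _)
    (fun ρ hρ => by
      have h1 : ∀ᶠ j : ℕ in atTop, 1 ≤ j ∧
          A0 * (((1:ℝ)/2) ^ j * Real.exp (2 * (K * ((kt q j : ℕ) : ℝ) ^ 2))) ≤ ρ := by
        refine (eventually_ge_atTop 1).and ?_
        have h2 := (wE_lim hK hq hKq).const_mul A0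
        rw [mul_zero] at h2
        exact h2.eventually (ge_mem_nhds hρ)
      rw [eventually_atTop] at h1
      obtain ⟨j1, hj1⟩ := h1
      refine ⟨A, j1, hA, fun j hj => ?_⟩
      obtain ⟨g1, g3⟩ := hj1 j hj
      have hw1 : ((1:ℝ)/2) ^ j ≤ 1/2 := by
        have : ((1:ℝ)/2) ^ j ≤ (1/2) ^ 1 := pow_le_pow_of_le_one (by norm_num) (by norm_num) g1
        simpa using this
      obtain ⟨δ1, hδ1, h4⟩ := hlat (kt q j) (6 * j + 36) ((1/2) ^ j) ρ (kt_ge q j)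
        (by omega) (by positivity) hw1 g3
      refine ⟨δ1, hδ1, fun δ hδ hδ' => ?_⟩
      exact (h4 δ hδ hδ').trans (pr_small hA j))
    hδ hlim hμ
  filter_upwards [hfin R δ hδ hlim μ hμ, hbc] with p g1 g2 s t hst
  obtain ⟨hp0, -, -, hcl, hhol, hdim⟩ := g1
  obtain ⟨a, b, i, e1, e2, e3, e4⟩ := bulk_arc hcl hdim hst
  have hU := ubi_slow hp0 hK hA00 hκ hq hKq (g2 i) e4
  have hcan := cantor (s := 1 - 24 * (K * q ^ 2)) (by linarith) (by linarith)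
    (show (a:ℝ) < b from e2) hU
  refine hcan.trans ?_
  have hsub : {x : ℝ | x ∈ Set.Icc (a:ℝ) b ∧ ∃ᶠ j in atTop, x ∈ Sk ((1/2) ^ j) (tj κ q j) p} ⊆
      Subtype.val '' {u : unitInterval | (s ≤ u ∧ u ≤ t) ∧
        ∃ᶠ j : ℕ in atTop, ∀ v : unitInterval, p.2 * |(v : ℝ) - u| ≤ tj κ q j / 4 →
          dist (p.1 v) (p.1 u) ≤ 2 * (1/2) ^ j} := by
    rintro x ⟨hx1, hx2⟩
    refine ⟨⟨x, a.2.1.trans hx1.1, hx1.2.trans b.2.2⟩, ⟨⟨?_, ?_⟩, ?_⟩, rfl⟩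
    · exact e1.trans (show (a : ℝ) ≤ x from hx1.1)
    · exact le_trans (show x ≤ (b : ℝ) from hx1.2) e3
    · refine hx2.mono fun j hj => ?_
      obtain ⟨v, hv1, hv2⟩ := hj
      have : v = ⟨x, a.2.1.trans hx1.1, hx1.2.trans b.2.2⟩ := Subtype.ext hv2
      rw [← this]
      exact hv1
  refine (dimH_mono hsub).trans (le_of_eq ?_)
  exact isometry_subtype_coe.dimH_image _

end Pool.Agent.R965.ST
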