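import Pool.Agent.R965.ST.Slow

/-!
Project ST: slow times: the dimension of the slow times and of their images.
-/

set_option autoImplicit false
set_option linter.unusedVariables false

namespace Pool.Agent.R965.ST

open H974 Finset H342P H984P H984N Pool.Agent.Y995.FS Pool.Agent.Y995.HG
open Pool.Agent.Y41.EV
open Pool.Agent.R965.CS (chb SPairs BadC LatC lat_c badC_open rpow_tend log_ge_one chb_pos chb_le
  le_chb)
open Pool.Agent.Y995.TP (cell Ubi cells_in ubi_gen cantor bulk_arc kt kt_ge kt_low kt_sq hj hj_pos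
  hj_lim hj_small star wE_lim pr_small Th lin_exp dim_nbhd thick_times)
open MeasureTheory Filter Topology
open scoped ENNReal NNReal

/-- Slow times are thick times. -/
theorem slow_thick {θ : ℝ} (hθ : 0 < θ) {p : X} (hp : 0 < p.2) :
    Sl θ p ⊆ Th (θ ^ (-(7/4) : ℝ)) p := by
  intro u hu
  have hpos : ∀ᶠ h : ℝ in 𝓝[>] 0, 0 < h ∧ h ≤ Real.exp (-1) := by
    filter_upwards [self_mem_nhdsWithin, (eventually_lt_nhds
      (Real.exp_pos (-1))).filter_mono nhdsWithin_le_nhds] with h h1 h2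
    exact ⟨h1, h2.le⟩
  have h0 : Tendsto (fun h : ℝ => θ * chb h) (𝓝[>] 0) (𝓝[>] 0) := by
    rw [tendsto_nhdsWithin_iff]
    constructor
    · have h1 : Tendsto (fun h : ℝ => θ * h ^ (4/7 : ℝ)) (𝓝[>] 0) (𝓝 0) := by
        have := (rpow_tend (show (0:ℝ) < 4/7 by norm_num)).const_mul θ
        rwa [mul_zero] at this
      refine squeeze_zero' ?_ ?_ h1
      · filter_upwards [hpos] with h hh
        exact (mul_pos hθ (chb_pos hh.1 hh.2)).le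
      · filter_upwards [hpos] with h hh
        exact mul_le_mul_of_nonneg_left (chb_le hh.1 hh.2) hθ.le
    · filter_upwards [hpos] with h hh
      exact mul_pos hθ (chb_pos hh.1 hh.2)
  refine h0.frequently ?_
  have hsm : ∀ᶠ h : ℝ in 𝓝[>] 0, h / p.2 ≤ 1/2 := by
    filter_upwards [(eventually_lt_nhds (show 0 < p.2 / 2 by positivity)).filter_mono
      nhdsWithin_le_nhds] with h h2
    rw [div_le_iff₀ hp]
    linarith
  have hr1 : ∀ᶠ h : ℝ in 𝓝[>] 0, θ * chb h < 1 :=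
    (h0.mono_right nhdsWithin_le_nhds).eventually (gt_mem_nhds one_pos)
  refine (hu.and_eventually (hpos.and (hsm.and ((le_chb hθ).and hr1)))).mono ?_
  rintro h ⟨h1, ⟨h2, h3⟩, h4, h5, h6⟩
  obtain ⟨r, hr⟩ : ∃ r, r = θ * chb h := ⟨_, rfl⟩
  have hchb := chb_pos h2 h3
  have hr0 : 0 < r := by rw [hr]; positivity
  show θ ^ (-(7/4) : ℝ) * ((θ * chb h) ^ (7/4 : ℝ) * Real.log (1 / (θ * chb h)) ^ (1/8 : ℝ)) ≤
    p.2 * (volume {v : unitInterval | dist (p.1 v) (p.1 u) ≤ θ * chb h}).toReal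
  have hlog := log_ge_one h2 h3
  have hvol : h / p.2 ≤ (volume {v : unitInterval | dist (p.1 v) (p.1 u) ≤ θ * chb h}).toReal := by
    have hh0 : 0 < h / p.2 := by positivity
    rcases le_total (u : ℝ) (1/2) with hu2 | hu2
    · obtain ⟨z, hz⟩ : ∃ z : unitInterval, z = ⟨u + h / p.2, by have := u.2.1; linarith, by
        linarith⟩ := ⟨_, rfl⟩
      have hzv : (z : ℝ) = u + h / p.2 := by rw [hz]
      have hsub : Set.Icc u z ⊆ {v : unitInterval | dist (p.1 v) (p.1 u) ≤ θ * chb h} := by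
        intro v hv
        have a1 : (u : ℝ) ≤ v := hv.1
        have a2 : (v : ℝ) ≤ z := hv.2
        refine h1 v ?_
        rw [abs_of_nonneg (by linarith)]
        have : (v : ℝ) - u ≤ h / p.2 := by linarith
        rw [le_div_iff₀ hp] at this
        linarith
      have g4 := ENNReal.toReal_mono (measure_ne_top _ _) (measure_mono (μ := volume) hsub)
      rw [unitInterval.volume_Icc, ENNReal.toReal_ofReal (by linarith)] at g4
      linarith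
    · obtain ⟨z, hz⟩ : ∃ z : unitInterval, z = ⟨u - h / p.2, by linarith, by
        have := u.2.2; linarith⟩ := ⟨_, rfl⟩
      have hzv : (z : ℝ) = u - h / p.2 := by rw [hz]
      have hsub : Set.Icc z u ⊆ {v : unitInterval | dist (p.1 v) (p.1 u) ≤ θ * chb h} := by
        intro v hv
        have a1 : (z : ℝ) ≤ v := hv.1
        have a2 : (v : ℝ) ≤ u := hv.2
        refine h1 v ?_
        rw [abs_sub_comm, abs_of_nonneg (by linarith)]
        have : (u : ℝ) - v ≤ h / p.2 := by linarith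
        rw [le_div_iff₀ hp] at this
        linarith
      have g4 := ENNReal.toReal_mono (measure_ne_top _ _) (measure_mono (μ := volume) hsub)
      rw [unitInterval.volume_Icc, ENNReal.toReal_ofReal (by linarith)] at g4
      linarith
  have h7 : h ≤ p.2 * (volume {v : unitInterval | dist (p.1 v) (p.1 u) ≤ θ * chb h}).toReal := by
    rw [div_le_iff₀ hp] at hvol
    linarith
  refine le_trans ?_ h7
  rw [← hr] at h5 h6 ⊢
  have e1 : Real.log (1 / r) ≤ Real.log (1 / h) :=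
    Real.log_le_log (by positivity) (one_div_le_one_div_of_le h2 h5)
  have e0 : 0 ≤ Real.log (1 / r) := by
    refine Real.log_nonneg ?_
    rw [le_div_iff₀ hr0]
    linarith
  have e2 : θ ^ (-(7/4) : ℝ) * r ^ (7/4 : ℝ) = h / Real.log (1 / h) ^ (1/8 : ℝ) := by
    rw [hr, Real.mul_rpow hθ.le hchb.le, ← mul_assoc, ← Real.rpow_add hθ]
    norm_num
    unfold chb
    rw [Real.div_rpow (by positivity) (by positivity), ← Real.rpow_mul h2.le,
      ← Real.rpow_mul (by linarith)]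
    norm_num
  have a1 : Real.log (1 / r) ^ (1/8 : ℝ) ≤ Real.log (1 / h) ^ (1/8 : ℝ) :=
    Real.rpow_le_rpow e0 e1 (by norm_num)
  have a2 : 0 < Real.log (1 / h) ^ (1/8 : ℝ) := by positivity
  calc θ ^ (-(7/4) : ℝ) * (r ^ (7/4 : ℝ) * Real.log (1 / r) ^ (1/8 : ℝ))
      = (θ ^ (-(7/4) : ℝ) * r ^ (7/4 : ℝ)) * Real.log (1 / r) ^ (1/8 : ℝ) := by ring
    _ = h / Real.log (1 / h) ^ (1/8 : ℝ) * Real.log (1 / r) ^ (1/8 : ℝ) := by rw [e2]
    _ ≤ h / Real.log (1 / h) ^ (1/8 : ℝ) * Real.log (1 / h) ^ (1/8 : ℝ) :=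
        mul_le_mul_of_nonneg_left a1 (by positivity)
    _ = h := by field_simp

theorem tj_le {K A κ q : ℝ} (hK : 1 ≤ K) (hA : 0 < A) (hκ : 0 < κ) (j : ℕ) :
    tj κ q j ≤ κ / A * hj K A q j := by
  have hk : (1:ℝ) ≤ ((kt q j : ℕ) : ℝ) := by
    have := kt_ge q j
    exact_mod_cast (by omega : 1 ≤ kt q j)
  obtain ⟨k, hk'⟩ : ∃ k : ℝ, k = ((kt q j : ℕ) : ℝ) := ⟨_, rfl⟩
  rw [← hk'] at hk
  have h1 : k ^ (1/4 : ℝ) ≤ Real.exp (2 * (K * k ^ 2)) ^ (7/4 : ℝ) := by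
    have h2 : k ^ (1/4 : ℝ) ≤ k := by
      have := Real.rpow_le_rpow_of_exponent_le hk (show (1/4 : ℝ) ≤ 1 by norm_num)
      rwa [Real.rpow_one] at this
    have h3 : k ≤ Real.exp k := by have := Real.add_one_le_exp k; linarith
    have h4 : Real.exp k ≤ Real.exp (2 * (K * k ^ 2)) ^ (7/4 : ℝ) := by
      rw [← Real.exp_mul]
      refine Real.exp_le_exp.mpr ?_
      have h5 : k ≤ K * k ^ 2 := by nlinarith
      have h6 : 0 ≤ K * k ^ 2 := by positivity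
      linarith
    exact h2.trans (h3.trans h4)
  have hw : 0 < (((1:ℝ)/2) ^ j) ^ (7/4 : ℝ) := by positivity
  unfold tj Pool.Agent.Y995.TP.tj hj
  rw [← hk', Real.mul_rpow (by positivity) (Real.exp_nonneg _)]
  push_cast
  have h7 : (1:ℝ) ≤ 6 * (j : ℝ) + 36 := by have : (0:ℝ) ≤ j := Nat.cast_nonneg _; linarith
  have h8 : 0 < Real.exp (2 * (K * k ^ 2)) ^ (7/4 : ℝ) := by positivity
  calc κ * (k ^ (1/4 : ℝ) * (((1:ℝ)/2) ^ j) ^ (7/4 : ℝ))
      ≤ κ * (Real.exp (2 * (K * k ^ 2)) ^ (7/4 : ℝ) * (((1:ℝ)/2) ^ j) ^ (7/4 : ℝ)) := by gcongr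
    _ = (κ * ((((1:ℝ)/2) ^ j) ^ (7/4 : ℝ) * Real.exp (2 * (K * k ^ 2)) ^ (7/4 : ℝ))) * 1 := by ring
    _ ≤ (κ * ((((1:ℝ)/2) ^ j) ^ (7/4 : ℝ) * Real.exp (2 * (K * k ^ 2)) ^ (7/4 : ℝ))) *
        (6 * (j : ℝ) + 36) := mul_le_mul_of_nonneg_left h7 (by positivity)
    _ = _ := by field_simp

theorem tj_lim {K κ q : ℝ} (hK : 1 ≤ K) (hκ : 0 < κ) (hq : 0 < q) (hKq : K * q ^ 2 ≤ 1/48) :
    Tendsto (tj κ q) atTop (𝓝 0) := by
  have h1 := (hj_lim (K := K) (A := 1) hK one_pos hq hKq).const_mul (κ / 1)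
  rw [mul_zero] at h1
  exact squeeze_zero (fun j => (tj_pos hκ j).le) (fun j => tj_le hK one_pos hκ j) h1

theorem slow_of {K κ q θ : ℝ} (hK : 1 ≤ K) (hκ : 0 < κ) (hq : 0 < q) (hKq : K * q ^ 2 ≤ 1/48)
    (hθ0 : 0 < θ) (hθ : 4 ≤ θ * ((κ / 4) ^ (4/7 : ℝ) * q ^ (1/7 : ℝ))) {p : X} {u : unitInterval}
    (h : ∃ᶠ j : ℕ in atTop, ∀ v : unitInterval, p.2 * |(v : ℝ) - u| ≤ tj κ q j / 4 →
      dist (p.1 v) (p.1 u) ≤ 2 * (1/2) ^ j) : u ∈ Sl θ p := by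
  have hlim : Tendsto (fun j => tj κ q j / 4) atTop (𝓝 0) := by
    have := (tj_lim hK hκ hq hKq).div_const 4
    rwa [zero_div] at this
  have h0 : Tendsto (fun j => tj κ q j / 4) atTop (𝓝[>] 0) := by
    rw [tendsto_nhdsWithin_iff]
    refine ⟨hlim, Eventually.of_forall fun j => ?_⟩
    have := tj_pos (q := q) hκ j
    show 0 < tj κ q j / 4
    positivity
  refine h0.frequently ?_
  obtain ⟨n1, hn1⟩ := exists_nat_gt (10 * |Real.log (4 / κ)| + 100)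
  refine (h.and_eventually ((eventually_ge_atTop n1).and
    (hlim.eventually (gt_mem_nhds (Real.exp_pos (-1)))))).mono ?_
  rintro j ⟨h1, h3, h4⟩ v hv
  refine (h1 v hv).trans ?_
  obtain ⟨w, hw⟩ : ∃ w : ℝ, w = (1/2) ^ j := ⟨_, rfl⟩
  have hw0 : 0 < w := by rw [hw]; positivity
  have hjn : (n1 : ℝ) ≤ j := by exact_mod_cast h3
  have habs := abs_nonneg (Real.log (4 / κ))
  have hj0 : (100:ℝ) ≤ j := by linarith
  obtain ⟨k, hk⟩ : ∃ k : ℝ, k = ((kt q j : ℕ) : ℝ) := ⟨_, rfl⟩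
  have hk1 : 1 ≤ k := by
    rw [hk]
    have := kt_ge q j
    exact_mod_cast (by omega : 1 ≤ kt q j)
  have hk2 : q * Real.sqrt j ≤ k := by rw [hk]; exact kt_low q j
  have e : tj κ q j / 4 = κ / 4 * (k ^ (1/4 : ℝ) * w ^ (7/4 : ℝ)) := by
    unfold tj Pool.Agent.Y995.TP.tj; rw [← hk, ← hw]; ring
  obtain ⟨η, hη⟩ : ∃ η, η = tj κ q j / 4 := ⟨_, rfl⟩
  rw [← hη] at e h4 ⊢
  have hη0 : 0 < η := by rw [e]; positivity
  have hlog1 := log_ge_one hη0 h4.le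
  have hlog : Real.log (1 / η) ≤ 2 * j := by
    have e1 : Real.log (1 / η) = Real.log (4 / κ) - 1/4 * Real.log k +
        7/4 * (j * Real.log 2) := by
      have hlw : Real.log w = -(j * Real.log 2) := by
        rw [hw, Real.log_pow, one_div, Real.log_inv]; ring
      have hlk : Real.log (4 / κ) = - Real.log (κ / 4) := by
        rw [← Real.log_inv, inv_div]
      rw [e, one_div, Real.log_inv, Real.log_mul (by positivity) (by positivity), Real.log_mul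
        (by positivity) (by positivity), Real.log_rpow (by positivity), Real.log_rpow hw0, hlw, hlk]
      ring
    have h6 : Real.log (4 / κ) ≤ 1/10 * j := by
      have := le_abs_self (Real.log (4 / κ))
      linarith
    have h7 : 0 ≤ Real.log k := Real.log_nonneg hk1
    have := Real.log_two_lt_d9
    rw [e1]
    nlinarith
  have h6 : Real.log (1 / η) ^ (1/14 : ℝ) ≤ 2 * (j : ℝ) ^ (1/14 : ℝ) := by
    have h7 := Real.rpow_le_rpow (by linarith) hlog (show (0:ℝ) ≤ 1/14 by norm_num)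
    rw [Real.mul_rpow (by norm_num) (by positivity)] at h7
    have h8 : (2:ℝ) ^ (1/14 : ℝ) ≤ 2 := by
      have : (2:ℝ) ^ (1/14 : ℝ) ≤ 2 ^ (1 : ℝ) :=
        Real.rpow_le_rpow_of_exponent_le (by norm_num) (by norm_num)
      rwa [Real.rpow_one] at this
    exact h7.trans (mul_le_mul_of_nonneg_right h8 (by positivity))
  have h7 : η ^ (4/7 : ℝ) = (κ / 4) ^ (4/7 : ℝ) * (k ^ (1/7 : ℝ) * w) := by
    rw [e, Real.mul_rpow (by positivity) (by positivity), Real.mul_rpow (by positivity)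
      (by positivity), ← Real.rpow_mul (by positivity), ← Real.rpow_mul (by positivity)]
    norm_num
  have h8 : q ^ (1/7 : ℝ) * (j : ℝ) ^ (1/14 : ℝ) ≤ k ^ (1/7 : ℝ) := by
    have h9 := Real.rpow_le_rpow (by positivity) hk2 (show (0:ℝ) ≤ 1/7 by norm_num)
    rw [Real.mul_rpow hq.le (Real.sqrt_nonneg _), Real.sqrt_eq_rpow,
      ← Real.rpow_mul (by positivity)] at h9
    norm_num at h9 ⊢
    exact h9
  have hj14 : 0 < (j : ℝ) ^ (1/14 : ℝ) := by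
    have : (0:ℝ) < j := by linarith
    positivity
  rw [← hw]
  unfold chb
  rw [h7]
  have h9 : 0 < Real.log (1 / η) ^ (1/14 : ℝ) := by positivity
  rw [← mul_div_assoc, le_div_iff₀ h9]
  calc 2 * w * Real.log (1 / η) ^ (1/14 : ℝ)
      ≤ 2 * w * (2 * (j : ℝ) ^ (1/14 : ℝ)) := by gcongr
    _ = 4 * ((j : ℝ) ^ (1/14 : ℝ) * w) := by ring
    _ ≤ (θ * ((κ / 4) ^ (4/7 : ℝ) * q ^ (1/7 : ℝ))) * ((j : ℝ) ^ (1/14 : ℝ) * w) :=
        mul_le_mul_of_nonneg_right hθ (by positivity)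
    _ = θ * ((κ / 4) ^ (4/7 : ℝ) * ((q ^ (1/7 : ℝ) * (j : ℝ) ^ (1/14 : ℝ)) * w)) := by ring
    _ ≤ θ * ((κ / 4) ^ (4/7 : ℝ) * (k ^ (1/7 : ℝ) * w)) := by gcongr

theorem slow_times : ∃ c C θ0 : ℝ, 0 < c ∧ 0 < C ∧ 0 < θ0 ∧ C / θ0 ^ 14 < 1 ∧ ∀ R : Rect,
    (∀ δ : ℕ → ℝ, (∀ i, 0 < δ i) → Tendsto δ atTop (𝓝 0) →
      ∃ φ : ℕ → ℕ, StrictMono φ ∧ ∃ μ : ProbabilityMeasure X,
        Tendsto (fun i => R.law (δ (φ i))) atTop (𝓝 μ)) ∧
    ∀ δ : ℕ → ℝ, (∀ i, 0 < δ i) → Tendsto δ atTop (𝓝 0) → ∀ μ : ProbabilityMeasure X,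
      Tendsto (fun i => R.law (δ i)) atTop (𝓝 μ) →
      ∀ᵐ p ∂(μ : Measure X), 0 < p.2 ∧ (∀ E : Set unitInterval, dimH (p.1 '' E) = 7 / 4 * dimH E) ∧
        ∀ θ : ℝ, θ0 ≤ θ → dimH (Sl θ p) ≤ ENNReal.ofReal (1 - c / θ ^ 14) ∧
          ∀ s t : unitInterval, s < t →
            ENNReal.ofReal (1 - C / θ ^ 14) ≤ dimH (Set.Icc s t ∩ Sl θ p) := by
  obtain ⟨⟨c, hc, hL⟩, ⟨C, hC, hU⟩, C2, hC2, hA⟩ := Pool.Agent.Y985.ME.inputs
  obtain ⟨κ, K, A0, hκ, hK, hA0, hlat⟩ := lat_c hc hC hL hU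
  obtain ⟨c1, C1, θ1, hc1, hC1, hθ1, -, hth⟩ := thick_times
  obtain ⟨q0, hq0⟩ : ∃ q0 : ℝ, q0 = 1 / (14 * K) := ⟨_, rfl⟩
  have hq0p : 0 < q0 := by rw [hq0]; positivity
  have hKq0 : K * q0 ^ 2 ≤ 1 / 196 := by
    rw [hq0, div_pow, one_pow, mul_one_div, div_le_div_iff₀ (by positivity) (by norm_num)]
    nlinarith
  obtain ⟨D, hD⟩ : ∃ D : ℝ, D = 4 / (κ / 4) ^ (4/7 : ℝ) := ⟨_, rfl⟩
  have hD0 : 0 < D := by rw [hD]; positivity
  obtain ⟨θ0, hθ0⟩ : ∃ θ0 : ℝ, θ0 = max (D / q0 ^ (1/7 : ℝ)) (θ1 ^ (-(4/7) : ℝ)) := ⟨_, rfl⟩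
  have hθ01 : D / q0 ^ (1/7 : ℝ) ≤ θ0 := by rw [hθ0]; exact le_max_left _ _
  have hθ02 : θ1 ^ (-(4/7) : ℝ) ≤ θ0 := by rw [hθ0]; exact le_max_right _ _
  have hθ00 : 0 < θ0 := lt_of_lt_of_le (by positivity) hθ01
  have hpow : ∀ θ : ℝ, θ0 ≤ θ → (D / θ) ^ 7 ≤ q0 := by
    intro θ h1
    have hθp : 0 < θ := lt_of_lt_of_le hθ00 h1
    have h3 : D / θ ≤ q0 ^ (1/7 : ℝ) := by
      have := hθ01.trans h1
      rw [div_le_iff₀ (by positivity)] at this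
      rw [div_le_iff₀ hθp]
      linarith
    have h4 := pow_le_pow_left₀ (by positivity) h3 7
    rw [← Real.rpow_natCast (q0 ^ (1/7 : ℝ)) 7, ← Real.rpow_mul hq0p.le] at h4
    norm_num at h4
    exact h4
  refine ⟨c1, 96 * K * D ^ 14, θ0, hc1, by positivity, hθ00, ?_, fun R => ?_⟩
  · have h1 := hpow θ0 le_rfl
    have h3 : ((D / θ0) ^ 7) ^ 2 ≤ q0 ^ 2 := pow_le_pow_left₀ (by positivity) h1 2
    have h2 : D ^ 14 / θ0 ^ 14 = ((D / θ0) ^ 7) ^ 2 := by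
      rw [← pow_mul, ← div_pow]
    calc 96 * K * D ^ 14 / θ0 ^ 14 = 96 * (K * (D ^ 14 / θ0 ^ 14)) := by ring
      _ ≤ 96 * (K * q0 ^ 2) := by rw [h2]; gcongr
      _ < 1 := by linarith
  obtain ⟨h1, h2, h3⟩ := final_of hc hC hL hU hC2 hA R
  refine ⟨h2, fun δ hδ hlim μ hμ => ?_⟩
  obtain ⟨A, hA1, hlatR⟩ := hlat R
  have hfin : ∀ R : Rect, (∀ δ : ℕ → ℝ, (∀ i, 0 < δ i) → Tendsto δ atTop (𝓝 0) →
      ∀ μ : ProbabilityMeasure X, Tendsto (fun i => R.law (δ i)) atTop (𝓝 μ) →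
      ∀ᵐ p ∂(μ : Measure X), 0 < p.2 ∧ p.1 0 = R.a ∧ p.1 1 = 0 ∧
        (∀ s : unitInterval, p.1 s ∈ closure R.D) ∧
        (∀ β : ℝ, 0 < β → β < 4/7 → ∃ Λ : ℝ, ∀ s t : unitInterval,
          dist (p.1 s) (p.1 t) ≤ Λ * |(s : ℝ) - t| ^ β) ∧
        ∀ s t : unitInterval, s < t → dimH (p.1 '' Set.Icc s t) = 7 / 4) :=
    fun R => (final_of hc hC hL hU hC2 hA R).2.2
  have hlow' : ∀ᵐ p ∂(μ : Measure X), ∀ n : ℕ, ∀ s t : unitInterval, s < t →
      ENNReal.ofReal (1 - 24 * (K * (q0 * (1/2) ^ n) ^ 2)) ≤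
        dimH {u : unitInterval | (s ≤ u ∧ u ≤ t) ∧ ∃ᶠ j : ℕ in atTop, ∀ v : unitInterval,
          p.2 * |(v : ℝ) - u| ≤ tj κ (q0 * (1/2) ^ n) j / 4 →
            dist (p.1 v) (p.1 u) ≤ 2 * (1/2) ^ j} := by
    rw [ae_all_iff]
    intro n
    refine slow_low hκ hK hA0 hfin (by positivity) ?_ hA1 hlatR hδ hlim hμ
    have h4 : ((1:ℝ)/2) ^ n ≤ 1 := pow_le_one₀ (by norm_num) (by norm_num)
    have h5 : (q0 * (1/2) ^ n) ^ 2 ≤ q0 ^ 2 :=
      pow_le_pow_left₀ (by positivity) (by nlinarith) 2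
    have h6 := mul_le_mul_of_nonneg_left h5 (show 0 ≤ K by linarith)
    linarith
  filter_upwards [(hth R).2 δ hδ hlim μ hμ, hlow'] with p g1 g2
  obtain ⟨hp0, hdim, hthp⟩ := g1
  refine ⟨hp0, hdim, fun θ hθ => ⟨?_, fun s t hst => ?_⟩⟩
  · have hθp : 0 < θ := lt_of_lt_of_le hθ00 hθ
    have h4 : θ ^ (-(7/4) : ℝ) ≤ θ1 := by
      have h5 := Real.rpow_le_rpow_of_nonpos (by positivity) (hθ02.trans hθ)
        (show (-(7/4) : ℝ) ≤ 0 by norm_num)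
      rw [← Real.rpow_mul hθ1.le] at h5
      norm_num at h5 ⊢
      exact h5
    have h5 := (hthp (θ ^ (-(7/4) : ℝ)) (by positivity) h4).1
    refine (dimH_mono (slow_thick hθp hp0)).trans (h5.trans (le_of_eq ?_))
    congr 2
    rw [← Real.rpow_natCast (θ ^ (-(7/4) : ℝ)) 8, ← Real.rpow_mul hθp.le, div_eq_mul_inv]
    congr 1
    rw [← Real.rpow_natCast θ 14, ← Real.rpow_neg hθp.le]
    norm_num
  · have hθp : 0 < θ := lt_of_lt_of_le hθ00 hθ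
    obtain ⟨n, hn1, hn2⟩ := exists_nat_pow_near_of_lt_one
      (show 0 < (D / θ) ^ 7 / q0 by positivity)
      (by rw [div_le_one hq0p]; exact hpow θ hθ) (show (0:ℝ) < 1/2 by norm_num) (by norm_num)
    obtain ⟨q, hq⟩ : ∃ q : ℝ, q = q0 * (1/2) ^ n := ⟨_, rfl⟩
    have hq0' : 0 < q := by rw [hq]; positivity
    have hqq0 : q ≤ q0 := by
      have : ((1:ℝ)/2) ^ n ≤ 1 := pow_le_one₀ (by norm_num) (by norm_num)
      rw [hq]
      nlinarith
    have hKq : K * q ^ 2 ≤ 1 / 48 := by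
      have h5 : q ^ 2 ≤ q0 ^ 2 := pow_le_pow_left₀ hq0'.le hqq0 2
      have h6 := mul_le_mul_of_nonneg_left h5 (show 0 ≤ K by linarith)
      linarith
    have hx1 : (D / θ) ^ 7 ≤ q := by
      rw [div_le_iff₀ hq0p] at hn2
      rw [hq]; linarith
    have hx2 : q ≤ 2 * (D / θ) ^ 7 := by
      rw [lt_div_iff₀ hq0p, pow_succ] at hn1
      rw [hq]; linarith
    have hx3 : 4 ≤ θ * ((κ / 4) ^ (4/7 : ℝ) * q ^ (1/7 : ℝ)) := by
      have h4 := Real.rpow_le_rpow (by positivity) hx1 (show (0:ℝ) ≤ 1/7 by norm_num)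
      rw [← Real.rpow_natCast (D / θ) 7, ← Real.rpow_mul (by positivity)] at h4
      norm_num at h4
      rw [div_le_iff₀ hθp, hD, div_le_iff₀ (by positivity)] at h4
      norm_num
      linarith
    have h4 := g2 n s t hst
    rw [← hq] at h4
    refine le_trans (ENNReal.ofReal_le_ofReal ?_) (h4.trans (dimH_mono ?_))
    · have h5 : q ^ 2 ≤ (2 * (D / θ) ^ 7) ^ 2 := pow_le_pow_left₀ hq0'.le hx2 2
      have e : (2 * (D / θ) ^ 7) ^ 2 = 4 * (D ^ 14 / θ ^ 14) := by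
        rw [mul_pow, ← pow_mul, ← div_pow]; norm_num
      rw [e] at h5
      have h6 := mul_le_mul_of_nonneg_left h5 (show 0 ≤ K by linarith)
      have e2 : 96 * K * D ^ 14 / θ ^ 14 = 24 * (K * (4 * (D ^ 14 / θ ^ 14))) := by ring
      rw [e2]
      linarith
    · rintro u ⟨⟨u1, u2⟩, u3⟩
      exact ⟨⟨u1, u2⟩, slow_of hK hκ hq0' hKq hθp hx3 u3⟩

end Pool.Agent.R965.ST
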